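import Mathlib

set_option autoImplicit false
set_option linter.unusedSectionVars false

/-! Interpolation for finite sums of rank one operators: the four-fold sum `Phi` (helper506). -/

namespace Pool.Agent.U506.CK

open Finset
open scoped InnerProductSpace ComplexConjugate

universe u u1 u2 u3 u4

variable {H : Type u} [NormedAddCommGroup H] [InnerProductSpace ℂ H]
variable {I : Type u1} {J : Type u2} [Fintype I] [Fintype J] {K : I → Type u3} {L : J → Type u4}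

/-- `∑ y_ik a_jl T_ij ⟨f_ik, u_jl⟩ ⟨v_jl, e_ik⟩` -/
noncomputable def Phi (T : I → J → ℂ) (e f : ∀ i, K i → H) (u v : ∀ j, L j → H) (S : ∀ i, Finset (K i))
    (R : ∀ j, Finset (L j)) (y : ∀ i, K i → ℂ) (a : ∀ j, L j → ℂ) : ℂ :=
  ∑ i, ∑ k ∈ S i, ∑ j, ∑ l ∈ R j, (y i k * a j l) * (T i j * (⟪f i k, u j l⟫_ℂ * ⟪v j l, e i k⟫_ℂ))

lemma cs_one {κ : Type*} {e f : κ → H} (he : Orthonormal ℂ e) (hf : Orthonormal ℂ f) (S : Finset κ) {x z : H}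
    (hx : ‖x‖ = 1) (hz : ‖z‖ = 1) : ∑ k ∈ S, ‖⟪f k, x⟫_ℂ‖ * ‖⟪z, e k⟫_ℂ‖ ≤ 1 := by
  have h1 := hf.sum_inner_products_le (x := x) (s := S)
  have h2 := he.sum_inner_products_le (x := z) (s := S)
  rw [hx, one_pow] at h1
  rw [hz, one_pow] at h2
  have h3 : ∀ k ∈ S, ‖⟪f k, x⟫_ℂ‖ * ‖⟪z, e k⟫_ℂ‖ ≤ (‖⟪f k, x⟫_ℂ‖ ^ 2 + ‖⟪e k, z⟫_ℂ‖ ^ 2) / 2 := by
    intro k _
    have : ‖⟪z, e k⟫_ℂ‖ = ‖⟪e k, z⟫_ℂ‖ := norm_inner_symm _ _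
    rw [this]
    nlinarith [sq_nonneg (‖⟪f k, x⟫_ℂ‖ - ‖⟪e k, z⟫_ℂ‖)]
  calc ∑ k ∈ S, ‖⟪f k, x⟫_ℂ‖ * ‖⟪z, e k⟫_ℂ‖ ≤ ∑ k ∈ S, (‖⟪f k, x⟫_ℂ‖ ^ 2 + ‖⟪e k, z⟫_ℂ‖ ^ 2) / 2 :=
        sum_le_sum h3
    _ = (∑ k ∈ S, ‖⟪f k, x⟫_ℂ‖ ^ 2 + ∑ k ∈ S, ‖⟪e k, z⟫_ℂ‖ ^ 2) / 2 := by
        rw [← sum_div, sum_add_distrib]
    _ ≤ 1 := by linarith

lemma norm_Phi_le_one {T : I → J → ℂ} (hT : ∀ i j, ‖T i j‖ ≤ 1) {e f : ∀ i, K i → H} {u v : ∀ j, L j → H}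
    (he : ∀ i, Orthonormal ℂ (e i)) (hf : ∀ i, Orthonormal ℂ (f i)) (hu : ∀ j, Orthonormal ℂ (u j))
    (hv : ∀ j, Orthonormal ℂ (v j)) (S : ∀ i, Finset (K i)) (R : ∀ j, Finset (L j)) (y : ∀ i, K i → ℂ)
    (a : ∀ j, L j → ℂ) {C : I → ℝ} (hC0 : ∀ i, 0 ≤ C i) (hC : ∀ i, ∀ k ∈ S i, ‖y i k‖ ≤ C i) :
    ‖Phi T e f u v S R y a‖ ≤ (∑ i, C i) * ∑ j, ∑ l ∈ R j, ‖a j l‖ := by
  unfold Phi
  rw [sum_mul]
  refine norm_sum_le_of_le _ (fun i _ => ?_)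
  have h1 : ‖∑ k ∈ S i, ∑ j, ∑ l ∈ R j, (y i k * a j l) * (T i j * (⟪f i k, u j l⟫_ℂ * ⟪v j l, e i k⟫_ℂ))‖ ≤
      ∑ k ∈ S i, ∑ j, ∑ l ∈ R j, C i * (‖a j l‖ * (‖⟪f i k, u j l⟫_ℂ‖ * ‖⟪v j l, e i k⟫_ℂ‖)) := by
    refine norm_sum_le_of_le _ (fun k hk => norm_sum_le_of_le _ (fun j _ => norm_sum_le_of_le _ (fun l _ => ?_)))
    rw [norm_mul, norm_mul, norm_mul, norm_mul]
    have e1 := hC i k hk
    have e2 := hT i j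
    have e3 : 0 ≤ ‖a j l‖ := norm_nonneg _
    have e4 : 0 ≤ ‖⟪f i k, u j l⟫_ℂ‖ * ‖⟪v j l, e i k⟫_ℂ‖ := by positivity
    calc ‖y i k‖ * ‖a j l‖ * (‖T i j‖ * (‖⟪f i k, u j l⟫_ℂ‖ * ‖⟪v j l, e i k⟫_ℂ‖))
        ≤ C i * ‖a j l‖ * (1 * (‖⟪f i k, u j l⟫_ℂ‖ * ‖⟪v j l, e i k⟫_ℂ‖)) := by
          have := hC0 i
          gcongr
      _ = _ := by ring
  refine h1.trans ?_
  rw [sum_comm]
  have h2 : ∀ j ∈ (univ : Finset J), ∑ k ∈ S i, ∑ l ∈ R j, C i * (‖a j l‖ * (‖⟪f i k, u j l⟫_ℂ‖ * ‖⟪v j l, e i k⟫_ℂ‖)) ≤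
      ∑ l ∈ R j, C i * ‖a j l‖ := by
    intro j _
    rw [sum_comm]
    refine sum_le_sum (fun l _ => ?_)
    rw [← mul_sum, ← mul_sum]
    have h3 := cs_one (he i) (hf i) (S i) ((hu j).1 l) ((hv j).1 l)
    have h4 : ‖a j l‖ * ∑ k ∈ S i, ‖⟪f i k, u j l⟫_ℂ‖ * ‖⟪v j l, e i k⟫_ℂ‖ ≤ ‖a j l‖ * 1 := by gcongr
    have := hC0 i
    calc _ ≤ C i * (‖a j l‖ * 1) := by gcongr
      _ = _ := by ring
  refine (sum_le_sum h2).trans (le_of_eq ?_)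
  rw [mul_sum]
  refine sum_congr rfl (fun j _ => ?_)
  rw [mul_sum]

lemma exists_fin_basis {s : Set H} (hs : s.Finite) :
    ∃ (d : ℕ) (b : Fin d → H), Orthonormal ℂ b ∧ ∀ x ∈ s, x = ∑ m, ⟪b m, x⟫_ℂ • b m := by
  haveI : FiniteDimensional ℂ (Submodule.span ℂ s) := FiniteDimensional.span_of_finite ℂ hs
  let b0 := stdOrthonormalBasis ℂ (Submodule.span ℂ s)
  refine ⟨_, fun m => (b0 m : H), b0.orthonormal.comp_linearIsometry (Submodule.span ℂ s).subtypeₗᵢ, ?_⟩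
  intro x hx
  have h1 := b0.sum_repr' ⟨x, Submodule.subset_span hx⟩
  have h2 := congrArg (fun w : Submodule.span ℂ s => (w : H)) h1
  simp only [Submodule.coe_sum, Submodule.coe_smul, Submodule.coe_inner] at h2
  exact h2.symm

lemma norm_sum_sq {κ : Type*} {f : κ → H} (hf : Orthonormal ℂ f) (S : Finset κ) (c : κ → ℂ) :
    ‖∑ k ∈ S, c k • f k‖ ^ 2 = ∑ k ∈ S, ‖c k‖ ^ 2 := by
  have h := hf.inner_sum c c S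
  have h2 : ((‖∑ k ∈ S, c k • f k‖ ^ 2 : ℝ) : ℂ) = ((∑ k ∈ S, ‖c k‖ ^ 2 : ℝ) : ℂ) := by
    have := inner_self_eq_norm_sq_to_K (𝕜 := ℂ) (∑ k ∈ S, c k • f k)
    rw [h] at this
    push_cast
    rw [show ((‖∑ k ∈ S, c k • f k‖ : ℂ)) ^ 2 = _ from this.symm]
    refine sum_congr rfl (fun k _ => ?_)
    rw [← Complex.normSq_eq_conj_mul_self, Complex.normSq_eq_norm_sq]
    push_cast
    rfl
  exact_mod_cast h2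

lemma norm_Phi_sq_le {T : I → J → ℂ} {N : ℝ} (hN : 0 ≤ N)
    (hT : ∀ x : J → H, ∑ i, ‖∑ j, T i j • x j‖ ^ 2 ≤ N * ∑ j, ‖x j‖ ^ 2) {e f : ∀ i, K i → H} {u v : ∀ j, L j → H}
    (he : ∀ i, Orthonormal ℂ (e i)) (hf : ∀ i, Orthonormal ℂ (f i)) (hu : ∀ j, Orthonormal ℂ (u j))
    (hv : ∀ j, Orthonormal ℂ (v j)) (S : ∀ i, Finset (K i)) (R : ∀ j, Finset (L j)) (y : ∀ i, K i → ℂ)
    (a : ∀ j, L j → ℂ) :
    ‖Phi T e f u v S R y a‖ ^ 2 ≤ (∑ i, ∑ k ∈ S i, ‖y i k‖ ^ 2) * (N * ∑ j, ∑ l ∈ R j, ‖a j l‖ ^ 2) := by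
  classical
  have hfin : (⋃ i : I, (e i) '' (S i : Set (K i))).Finite :=
    Set.finite_iUnion (fun i => (S i).finite_toSet.image _)
  obtain ⟨d, b, hb, hbe⟩ := exists_fin_basis hfin
  have hbe' : ∀ i, ∀ k ∈ S i, ∀ x : H, ⟪x, e i k⟫_ℂ = ∑ m, ⟪x, b m⟫_ℂ * ⟪b m, e i k⟫_ℂ := by
    intro i k hk x
    have := hbe (e i k) (Set.mem_iUnion.2 ⟨i, k, hk, rfl⟩)
    conv_lhs => rw [this]
    rw [inner_sum]
    refine sum_congr rfl (fun m _ => ?_)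
    rw [inner_smul_right, mul_comm]
  let g : I → Fin d → H := fun i m => ∑ k ∈ S i, (conj (y i k * ⟪b m, e i k⟫_ℂ)) • f i k
  let z : J → Fin d → H := fun j m => ∑ l ∈ R j, (a j l * ⟪v j l, b m⟫_ℂ) • u j l
  have hPhi : Phi T e f u v S R y a = ∑ i, ∑ m, ⟪g i m, ∑ j, T i j • z j m⟫_ℂ := by
    unfold Phi
    refine sum_congr rfl (fun i _ => ?_)
    have h1 : ∀ m, ⟪g i m, ∑ j, T i j • z j m⟫_ℂ = ∑ k ∈ S i, ∑ j, ∑ l ∈ R j,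
        (y i k * a j l) * (T i j * (⟪f i k, u j l⟫_ℂ * (⟪v j l, b m⟫_ℂ * ⟪b m, e i k⟫_ℂ))) := by
      intro m
      simp only [g, z]
      rw [sum_inner]
      refine sum_congr rfl (fun k _ => ?_)
      rw [inner_smul_left, Complex.conj_conj, inner_sum, mul_sum]
      refine sum_congr rfl (fun j _ => ?_)
      rw [inner_smul_right, inner_sum, mul_sum, mul_sum]
      refine sum_congr rfl (fun l _ => ?_)
      rw [inner_smul_right]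
      ring
    simp_rw [h1]
    symm
    rw [sum_comm]
    refine sum_congr rfl (fun k hk => ?_)
    rw [sum_comm]
    refine sum_congr rfl (fun j _ => ?_)
    rw [sum_comm]
    refine sum_congr rfl (fun l _ => ?_)
    rw [hbe' i k hk, mul_sum, mul_sum, mul_sum]
  have hg : ∀ i m, ‖g i m‖ ^ 2 = ∑ k ∈ S i, ‖y i k‖ ^ 2 * ‖⟪b m, e i k⟫_ℂ‖ ^ 2 := by
    intro i m
    simp only [g]
    rw [norm_sum_sq (hf i)]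
    refine sum_congr rfl (fun k _ => ?_)
    rw [RCLike.norm_conj, norm_mul, mul_pow]
  have hz : ∀ j m, ‖z j m‖ ^ 2 = ∑ l ∈ R j, ‖a j l‖ ^ 2 * ‖⟪v j l, b m⟫_ℂ‖ ^ 2 := by
    intro j m
    simp only [z]
    rw [norm_sum_sq (hu j)]
    refine sum_congr rfl (fun l _ => ?_)
    rw [norm_mul, mul_pow]
  have hG : ∑ i, ∑ m, ‖g i m‖ ^ 2 ≤ ∑ i, ∑ k ∈ S i, ‖y i k‖ ^ 2 := by
    refine sum_le_sum (fun i _ => ?_)
    simp_rw [hg]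
    rw [sum_comm]
    refine sum_le_sum (fun k _ => ?_)
    rw [← mul_sum]
    have := hb.sum_inner_products_le (x := e i k) (s := univ)
    rw [(he i).1 k, one_pow] at this
    nlinarith [sq_nonneg ‖y i k‖]
  have hZ : ∑ j, ∑ m, ‖z j m‖ ^ 2 ≤ ∑ j, ∑ l ∈ R j, ‖a j l‖ ^ 2 := by
    refine sum_le_sum (fun j _ => ?_)
    simp_rw [hz]
    rw [sum_comm]
    refine sum_le_sum (fun l _ => ?_)
    rw [← mul_sum]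
    have := hb.sum_inner_products_le (x := v j l) (s := univ)
    rw [(hv j).1 l, one_pow] at this
    have h2 : ∀ m, ‖⟪v j l, b m⟫_ℂ‖ = ‖⟪b m, v j l⟫_ℂ‖ := fun m => norm_inner_symm _ _
    simp_rw [h2]
    nlinarith [sq_nonneg ‖a j l‖]
  have hX : ∑ i, ∑ m, ‖∑ j, T i j • z j m‖ ^ 2 ≤ N * ∑ j, ∑ l ∈ R j, ‖a j l‖ ^ 2 := by
    rw [sum_comm]
    calc ∑ m, ∑ i, ‖∑ j, T i j • z j m‖ ^ 2 ≤ ∑ m, N * ∑ j, ‖z j m‖ ^ 2 :=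
          sum_le_sum (fun m _ => hT (fun j => z j m))
      _ = N * ∑ j, ∑ m, ‖z j m‖ ^ 2 := by rw [← mul_sum, sum_comm]
      _ ≤ _ := by gcongr
  have hn : ‖Phi T e f u v S R y a‖ ≤ ∑ w : I × Fin d, ‖g w.1 w.2‖ * ‖∑ j, T w.1 j • z j w.2‖ := by
    rw [hPhi, ← Fintype.sum_prod_type' (f := fun i m => ⟪g i m, ∑ j, T i j • z j m⟫_ℂ)]
    exact norm_sum_le_of_le _ (fun w _ => norm_inner_le_norm _ _)
  calc ‖Phi T e f u v S R y a‖ ^ 2 ≤ (∑ w : I × Fin d, ‖g w.1 w.2‖ * ‖∑ j, T w.1 j • z j w.2‖) ^ 2 := by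
        gcongr
    _ ≤ (∑ w : I × Fin d, ‖g w.1 w.2‖ ^ 2) * ∑ w : I × Fin d, ‖∑ j, T w.1 j • z j w.2‖ ^ 2 :=
        sum_mul_sq_le_sq_mul_sq _ _ _
    _ = (∑ i, ∑ m, ‖g i m‖ ^ 2) * ∑ i, ∑ m, ‖∑ j, T i j • z j m‖ ^ 2 := by
        rw [Fintype.sum_prod_type, Fintype.sum_prod_type]
    _ ≤ _ := by
        have : 0 ≤ ∑ i, ∑ m, ‖∑ j, T i j • z j m‖ ^ 2 := by positivity
        gcongr

end Pool.Agent.U506.CK
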