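import Pool.Agent.U506.CK.A

set_option autoImplicit false
set_option linter.unusedSectionVars false

/-! Interpolation between `ℓ^1(S_1) → ℓ^∞(S_∞)` and `ℓ^2(S_2) → ℓ^2(S_2)` for finite sums of rank one operators
(helper506). -/

namespace Pool.Agent.U506.CK

open Finset Complex.HadamardThreeLines
open scoped InnerProductSpace ComplexConjugate

universe u u1 u2 u3 u4

variable {H : Type u} [NormedAddCommGroup H] [InnerProductSpace ℂ H]
variable {I : Type u1} {J : Type u2} [Fintype I] [Fintype J] {K : I → Type u3} {L : J → Type u4}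

lemma rpow_mid {r s lo hi : ℝ} (hr : 0 < r) (h1 : lo ≤ s) (h2 : s ≤ hi) : r ^ s ≤ r ^ lo + r ^ hi := by
  rcases le_total 1 r with h | h
  · have h3 := Real.rpow_le_rpow_of_exponent_le h h2
    have h4 := Real.rpow_pos_of_pos hr lo
    linarith
  · have h3 := Real.rpow_le_rpow_of_exponent_ge hr h h1
    have h4 := Real.rpow_pos_of_pos hr hi
    linarith

theorem interp {T : I → J → ℂ} (hT1 : ∀ i j, ‖T i j‖ ≤ 1) {N : ℝ} (hN : 0 ≤ N)
    (hT2 : ∀ x : J → H, ∑ i, ‖∑ j, T i j • x j‖ ^ 2 ≤ N * ∑ j, ‖x j‖ ^ 2) {e f : ∀ i, K i → H} {u v : ∀ j, L j → H}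
    (he : ∀ i, Orthonormal ℂ (e i)) (hf : ∀ i, Orthonormal ℂ (f i)) (hu : ∀ j, Orthonormal ℂ (u j))
    (hv : ∀ j, Orthonormal ℂ (v j)) (S : ∀ i, Finset (K i)) (R : ∀ j, Finset (L j)) {p q : ℝ} (hp : 1 < p)
    (hp2 : p ≤ 2) (hpq : 1 / p + 1 / q = 1) (y : ∀ i, K i → ℝ) (a : ∀ j, L j → ℝ)
    (hy : ∀ i, ∀ k ∈ S i, 0 < y i k) (ha : ∀ j, ∀ l ∈ R j, 0 < a j l) :
    ‖Phi T e f u v S R (fun i k => (y i k : ℂ)) (fun j l => (a j l : ℂ))‖ ≤
      N ^ (1 / q) * ((∑ i, (∑ k ∈ S i, y i k ^ q) ^ (p / q)) ^ (1 / p) *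
        (∑ j, ∑ l ∈ R j, a j l ^ p) ^ (1 / p)) := by
  have hp0 : 0 < p := by linarith
  have hq' : 1 / q = 1 - 1 / p := by linarith
  have h1p : 1 / p < 1 := by rw [div_lt_one hp0]; exact hp
  have h1p2 : 1 / 2 ≤ 1 / p := by
    apply one_div_le_one_div_of_le hp0 hp2
  have hq0 : 0 < q := by
    have : 0 < 1 / q := by rw [hq']; linarith
    exact one_div_pos.1 this
  have hq2 : 2 / q ≤ 1 := by
    have : 2 / q = 2 * (1 / q) := by ring
    rw [this, hq']; linarith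
  have hθ0 : 0 ≤ 2 / q := by positivity
  -- the norms of the rows
  set C : I → ℝ := fun i => (∑ k ∈ S i, y i k ^ q) ^ (1 / q) with hCdef
  have hsum0 : ∀ i, 0 ≤ ∑ k ∈ S i, y i k ^ q := fun i =>
    sum_nonneg (fun k hk => Real.rpow_nonneg (hy i k hk).le _)
  have hC0 : ∀ i, 0 ≤ C i := fun i => Real.rpow_nonneg (hsum0 i) _
  have hle : ∀ i, ∀ k ∈ S i, y i k ≤ C i := by
    intro i k hk
    have h1 : y i k ^ q ≤ ∑ k ∈ S i, y i k ^ q :=
      single_le_sum (f := fun k => y i k ^ q) (fun k hk => Real.rpow_nonneg (hy i k hk).le _) hk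
    have h2 := Real.rpow_le_rpow (Real.rpow_nonneg (hy i k hk).le _) h1 (show 0 ≤ 1 / q by positivity)
    rwa [← Real.rpow_mul (hy i k hk).le, mul_one_div_cancel hq0.ne', Real.rpow_one] at h2
  have hCpos : ∀ i, ∀ k ∈ S i, 0 < C i := fun i k hk => lt_of_lt_of_le (hy i k hk) (hle i k hk)
  have hCq : ∀ i, C i ^ q = ∑ k ∈ S i, y i k ^ q := by
    intro i
    simp only [hCdef]
    rw [← Real.rpow_mul (hsum0 i), one_div_mul_cancel hq0.ne', Real.rpow_one]
  have hCp : ∀ i, C i ^ p = (∑ k ∈ S i, y i k ^ q) ^ (p / q) := by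
    intro i
    simp only [hCdef]
    rw [← Real.rpow_mul (hsum0 i)]
    congr 1
    ring
  set G : ℝ := ∑ i, C i ^ p with hG
  set α : ℝ := ∑ j, ∑ l ∈ R j, a j l ^ p with hα
  have hG0 : 0 ≤ G := sum_nonneg (fun i _ => Real.rpow_nonneg (hC0 i) _)
  have hα0 : 0 ≤ α := sum_nonneg (fun j _ => sum_nonneg (fun l hl => Real.rpow_nonneg (ha j l hl).le _))
  -- the analytic families
  set Y : ℂ → ∀ i, K i → ℂ := fun z i k =>
    ((C i : ℝ) : ℂ) ^ ((p : ℂ) - ((p / 2 : ℝ) : ℂ) * z) * ((y i k / C i : ℝ) : ℂ) ^ (((q / 2 : ℝ) : ℂ) * z) with hY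
  set A : ℂ → ∀ j, L j → ℂ := fun z j l => ((a j l : ℝ) : ℂ) ^ ((p : ℂ) - ((p / 2 : ℝ) : ℂ) * z) with hA
  set F : ℂ → ℂ := fun z => Phi T e f u v S R (Y z) (A z) with hF
  have hre : ∀ z : ℂ, ((p : ℂ) - ((p / 2 : ℝ) : ℂ) * z).re = p - p / 2 * z.re := by
    intro z
    rw [Complex.sub_re, Complex.ofReal_re, Complex.re_ofReal_mul]
  have hre' : ∀ z : ℂ, (((q / 2 : ℝ) : ℂ) * z).re = q / 2 * z.re := by
    intro z
    rw [Complex.re_ofReal_mul]
  have hnY : ∀ z i, ∀ k ∈ S i, ‖Y z i k‖ = C i ^ (p - p / 2 * z.re) * (y i k / C i) ^ (q / 2 * z.re) := by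
    intro z i k hk
    simp only [hY]
    rw [norm_mul, Complex.norm_cpow_eq_rpow_re_of_pos (hCpos i k hk),
      Complex.norm_cpow_eq_rpow_re_of_pos (div_pos (hy i k hk) (hCpos i k hk)), hre, hre']
  have hnA : ∀ z j, ∀ l ∈ R j, ‖A z j l‖ = a j l ^ (p - p / 2 * z.re) := by
    intro z j l hl
    simp only [hA]
    rw [Complex.norm_cpow_eq_rpow_re_of_pos (ha j l hl), hre]
  -- differentiability
  have hlin : Differentiable ℂ (fun z : ℂ => (p : ℂ) - ((p / 2 : ℝ) : ℂ) * z) := by fun_prop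
  have hlin' : Differentiable ℂ (fun z : ℂ => ((q / 2 : ℝ) : ℂ) * z) := by fun_prop
  have hd : Differentiable ℂ F := by
    simp only [hF, Phi]
    refine Differentiable.fun_sum (fun i _ => Differentiable.fun_sum (fun k hk => Differentiable.fun_sum
      (fun j _ => Differentiable.fun_sum (fun l hl => ?_))))
    refine Differentiable.mul_const ?_ _
    have c1 : ((C i : ℝ) : ℂ) ≠ 0 := by exact_mod_cast (hCpos i k hk).ne'
    have c2 : ((y i k / C i : ℝ) : ℂ) ≠ 0 := by exact_mod_cast (div_pos (hy i k hk) (hCpos i k hk)).ne'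
    have c3 : ((a j l : ℝ) : ℂ) ≠ 0 := by exact_mod_cast (ha j l hl).ne'
    exact ((hlin.const_cpow (Or.inl c1)).mul (hlin'.const_cpow (Or.inl c2))).mul (hlin.const_cpow (Or.inl c3))
  -- boundedness
  have hB : BddAbove ((norm ∘ F) '' verticalClosedStrip 0 1) := by
    refine ⟨(∑ i, (C i ^ (p / 2) + C i ^ p)) * ∑ j, ∑ l ∈ R j, (a j l ^ (p / 2) + a j l ^ p), ?_⟩
    rintro _ ⟨z, hz, rfl⟩
    have hz' : 0 ≤ z.re ∧ z.re ≤ 1 := hz
    have b1 : ∀ i, ∀ k ∈ S i, ‖Y z i k‖ ≤ C i ^ (p / 2) + C i ^ p := by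
      intro i k hk
      rw [hnY z i k hk]
      have h1 := rpow_mid (hCpos i k hk) (s := p - p / 2 * z.re) (lo := p / 2) (hi := p) (by nlinarith)
        (by nlinarith)
      have h2 : (y i k / C i) ^ (q / 2 * z.re) ≤ 1 :=
        Real.rpow_le_one (div_nonneg (hy i k hk).le (hC0 i))
          ((div_le_one (hCpos i k hk)).2 (hle i k hk)) (mul_nonneg (by positivity) hz'.1)
      have h3 : 0 ≤ C i ^ (p - p / 2 * z.re) := Real.rpow_nonneg (hC0 i) _
      calc _ ≤ C i ^ (p - p / 2 * z.re) * 1 := by gcongr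
        _ ≤ _ := by rw [mul_one]; exact h1
    have b2 : ∑ j, ∑ l ∈ R j, ‖A z j l‖ ≤ ∑ j, ∑ l ∈ R j, (a j l ^ (p / 2) + a j l ^ p) := by
      refine sum_le_sum (fun j _ => sum_le_sum (fun l hl => ?_))
      rw [hnA z j l hl]
      exact rpow_mid (ha j l hl) (by nlinarith) (by nlinarith)
    have b3 : ∀ i, 0 ≤ C i ^ (p / 2) + C i ^ p := fun i =>
      add_nonneg (Real.rpow_nonneg (hC0 i) _) (Real.rpow_nonneg (hC0 i) _)
    refine (norm_Phi_le_one hT1 he hf hu hv S R (Y z) (A z) b3 b1).trans ?_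
    have : 0 ≤ ∑ i, (C i ^ (p / 2) + C i ^ p) := sum_nonneg (fun i _ => b3 i)
    exact mul_le_mul_of_nonneg_left b2 this
  -- the left edge
  have hL : ∀ z ∈ Complex.re ⁻¹' {(0 : ℝ)}, ‖F z‖ ≤ G * α := by
    intro z hz
    have hz0 : z.re = 0 := hz
    have b1 : ∀ i, ∀ k ∈ S i, ‖Y z i k‖ ≤ C i ^ p := by
      intro i k hk
      rw [hnY z i k hk, hz0]
      simp
    refine (norm_Phi_le_one hT1 he hf hu hv S R (Y z) (A z) (fun i => Real.rpow_nonneg (hC0 i) _) b1).trans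
      (le_of_eq ?_)
    rw [hG, hα]
    congr 1
    refine sum_congr rfl (fun j _ => sum_congr rfl (fun l hl => ?_))
    rw [hnA z j l hl, hz0]
    simp
  -- the right edge
  have hR : ∀ z ∈ Complex.re ⁻¹' {(1 : ℝ)}, ‖F z‖ ≤ Real.sqrt (G * (N * α)) := by
    intro z hz
    have hz1 : z.re = 1 := hz
    have b1 : ∑ i, ∑ k ∈ S i, ‖Y z i k‖ ^ 2 ≤ G := by
      refine sum_le_sum (fun i _ => ?_)
      have h1 : ∀ k ∈ S i, ‖Y z i k‖ ^ 2 = C i ^ p * (y i k ^ q / C i ^ q) := by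
        intro k hk
        rw [hnY z i k hk, hz1, mul_pow, ← Real.rpow_natCast (C i ^ _) 2, ← Real.rpow_mul (hC0 i),
          ← Real.rpow_natCast ((y i k / C i) ^ _) 2, ← Real.rpow_mul (div_nonneg (hy i k hk).le (hC0 i)),
          ← Real.div_rpow (hy i k hk).le (hC0 i)]
        congr 2 <;> push_cast <;> ring
      rw [sum_congr rfl h1, ← mul_sum, ← sum_div, ← hCq i]
      have h2 : C i ^ q / C i ^ q ≤ 1 := div_self_le_one _
      have h3 : 0 ≤ C i ^ p := Real.rpow_nonneg (hC0 i) _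
      nlinarith
    have b2 : ∑ j, ∑ l ∈ R j, ‖A z j l‖ ^ 2 = α := by
      refine sum_congr rfl (fun j _ => sum_congr rfl (fun l hl => ?_))
      rw [hnA z j l hl, hz1, ← Real.rpow_natCast (a j l ^ _) 2, ← Real.rpow_mul (ha j l hl).le]
      congr 1
      push_cast
      ring
    have h1 := norm_Phi_sq_le hN hT2 he hf hu hv S R (Y z) (A z)
    rw [b2] at h1
    apply Real.le_sqrt_of_sq_le
    refine h1.trans ?_
    have : 0 ≤ N * α := mul_nonneg hN hα0
    gcongr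
  -- three lines
  have hz : ((2 / q : ℝ) : ℂ) ∈ verticalClosedStrip 0 1 := by
    show ((2 / q : ℝ) : ℂ).re ∈ Set.Icc (0 : ℝ) 1
    rw [Complex.ofReal_re]
    exact ⟨hθ0, hq2⟩
  have h3 := norm_le_interp_of_mem_verticalClosedStrip₀₁' F hz hd.diffContOnCl hB hL hR
  rw [Complex.ofReal_re] at h3
  have hexp : (p : ℂ) - ((p / 2 : ℝ) : ℂ) * ((2 / q : ℝ) : ℂ) = 1 := by
    have : p - p / 2 * (2 / q) = 1 := by
      have : p / 2 * (2 / q) = p * (1 / q) := by ring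
      rw [this, hq', mul_sub, mul_one, mul_one_div_cancel hp0.ne']
      ring
    exact_mod_cast this
  have hexp' : ((q / 2 : ℝ) : ℂ) * ((2 / q : ℝ) : ℂ) = 1 := by
    have : q / 2 * (2 / q) = 1 := by field_simp
    exact_mod_cast this
  have hFθ : F ((2 / q : ℝ) : ℂ) = Phi T e f u v S R (fun i k => (y i k : ℂ)) (fun j l => (a j l : ℂ)) := by
    simp only [hF, Phi]
    refine sum_congr rfl (fun i _ => sum_congr rfl (fun k hk => sum_congr rfl (fun j _ => sum_congr rfl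
      (fun l _ => ?_))))
    congr 1
    simp only [hY, hA]
    rw [hexp, hexp', Complex.cpow_one, Complex.cpow_one, Complex.cpow_one]
    congr 1
    have : C i * (y i k / C i) = y i k := mul_div_cancel₀ _ (hCpos i k hk).ne'
    exact_mod_cast this
  rw [hFθ] at h3
  refine h3.trans (le_of_eq ?_)
  have hGα : 0 ≤ G * α := mul_nonneg hG0 hα0
  have e1 : Real.sqrt (G * (N * α)) ^ (2 / q) = N ^ (1 / q) * (G * α) ^ (1 / q) := by
    have : G * (N * α) = N * (G * α) := by ring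
    rw [this, Real.sqrt_eq_rpow, ← Real.rpow_mul (mul_nonneg hN hGα), show (1 : ℝ) / 2 * (2 / q) = 1 / q by ring,
      Real.mul_rpow hN hGα]
  have e2 : (G * α) ^ (1 - 2 / q) * (G * α) ^ (1 / q) = (G * α) ^ (1 / p) := by
    rw [← Real.rpow_add_of_nonneg hGα (by linarith) (by positivity)]
    congr 1
    have : 2 / q = 2 * (1 / q) := by ring
    rw [this, hq']
    ring
  have e3 : (G * α) ^ (1 / p) = (∑ i, (∑ k ∈ S i, y i k ^ q) ^ (p / q)) ^ (1 / p) * α ^ (1 / p) := by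
    rw [Real.mul_rpow hG0 hα0, hG]
    simp_rw [hCp]
  rw [e1, ← e3, ← e2]
  ring

end Pool.Agent.U506.CK
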