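import Pool.Agent.U506.CK.B
import Pool.Agent.Helper526.Sch.Classes

set_option autoImplicit false
set_option linter.unusedSectionVars false

/-! Singular value expansions and the passage to infinite expansions (helper506). -/

namespace Pool.Agent.U506.CK

open Finset Filter Topology Pool.Agent.Helper526.Sch
open scoped InnerProductSpace ComplexConjugate ENNReal

universe u v u1 u2 u3 u4

section svd

variable {ι : Type v} {H : Type u} [NormedAddCommGroup H] [InnerProductSpace ℂ H] [CompleteSpace H]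

lemma exists_svd (b : HilbertBasis ι ℂ H) {X : H →L[ℂ] H} (hX : IsCompactOperator X) :
    ∃ (κ : Type u) (w v : κ → H) (s : κ → ℝ), Orthonormal ℂ w ∧ Orthonormal ℂ v ∧ (∀ k, 0 < s k) ∧
      (∀ x y, HasSum (fun k => (s k : ℂ) * (⟪y, w k⟫_ℂ * ⟪v k, x⟫_ℂ)) ⟪y, X x⟫_ℂ) ∧
      (∀ k, ⟪w k, X (v k)⟫_ℂ = s k) ∧ ∀ p : ℝ, 0 < p → trAbsPow b p X = ∑' k, ENNReal.ofReal (s k ^ p) := by
  classical
  obtain ⟨κ0, g, lam, hg⟩ := exists_eigenbasis' (Cpt.of_compact hX).1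
  have hlam : ∀ k, lam k = ‖X (g k)‖ ^ 2 := eigen_nonneg g hg
  have hinner : ∀ j k, ⟪X (g j), X (g k)⟫_ℂ = (lam k : ℂ) * ⟪g j, g k⟫_ℂ := by
    intro j k
    rw [← inner_star_right X (g j) (X (g k))]
    have : (star X) (X (g k)) = (star X * X) (g k) := rfl
    rw [this, hg k, inner_smul_right]
  have hX0 : ∀ k, lam k = 0 → X (g k) = 0 := by
    intro k hk
    have := hlam k
    rw [hk] at this
    have h2 : ‖X (g k)‖ = 0 := by
      have := pow_eq_zero_iff (n := 2) (by norm_num) |>.1 this.symm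
      exact this
    exact norm_eq_zero.1 h2
  have hpos : ∀ k : {k // lam k ≠ 0}, 0 < ‖X (g k.1)‖ := by
    intro k
    rcases (norm_nonneg (X (g k.1))).lt_or_eq with h | h
    · exact h
    · exfalso
      apply k.2
      rw [hlam, ← h]
      norm_num
  refine ⟨{k // lam k ≠ 0}, fun k => ((‖X (g k.1)‖ : ℝ) : ℂ)⁻¹ • X (g k.1), fun k => g k.1,
    fun k => ‖X (g k.1)‖, ?_, ?_, hpos, ?_, ?_, ?_⟩
  · constructor
    · intro k
      rw [norm_smul, norm_inv, Complex.norm_real, norm_norm]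
      exact inv_mul_cancel₀ (hpos k).ne'
    · intro j k hjk
      show ⟪((‖X (g j.1)‖ : ℝ) : ℂ)⁻¹ • X (g j.1), ((‖X (g k.1)‖ : ℝ) : ℂ)⁻¹ • X (g k.1)⟫_ℂ = 0
      rw [inner_smul_left, inner_smul_right, hinner,
        g.orthonormal.2 (show j.1 ≠ k.1 from fun h => hjk (Subtype.ext h))]
      simp
  · exact g.orthonormal.comp _ Subtype.val_injective
  · intro x y
    have h := g.hasSum_inner_mul_inner ((star X) y) x
    rw [inner_star_left] at h
    have h2 : HasSum (fun k => ⟪y, X (g k)⟫_ℂ * ⟪g k, x⟫_ℂ) ⟪y, X x⟫_ℂ := by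
      have heq : (fun k => ⟪y, X (g k)⟫_ℂ * ⟪g k, x⟫_ℂ) = fun k => ⟪(star X) y, g k⟫_ℂ * ⟪g k, x⟫_ℂ := by
        funext k
        rw [inner_star_left]
      rw [heq]
      exact h
    have hsupp : Function.support (fun k => ⟪y, X (g k)⟫_ℂ * ⟪g k, x⟫_ℂ) ⊆ {k | lam k ≠ 0} := by
      intro k hk hk0
      apply hk
      have hk0' : lam k = 0 := hk0
      show ⟪y, X (g k)⟫_ℂ * ⟪g k, x⟫_ℂ = 0
      rw [hX0 k hk0', inner_zero_right, zero_mul]
    have h3 := (hasSum_subtype_iff_of_support_subset hsupp).2 h2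
    have heq : (fun k : {k // lam k ≠ 0} => ((‖X (g k.1)‖ : ℝ) : ℂ) * (⟪y, ((‖X (g k.1)‖ : ℝ) : ℂ)⁻¹ • X (g k.1)⟫_ℂ *
        ⟪g k.1, x⟫_ℂ)) = (fun k => ⟪y, X (g k)⟫_ℂ * ⟪g k, x⟫_ℂ) ∘ Subtype.val := by
      funext k
      have hne : ((‖X (g k.1)‖ : ℝ) : ℂ) ≠ 0 := by exact_mod_cast (hpos k).ne'
      show ((‖X (g k.1)‖ : ℝ) : ℂ) * (⟪y, ((‖X (g k.1)‖ : ℝ) : ℂ)⁻¹ • X (g k.1)⟫_ℂ * ⟪g k.1, x⟫_ℂ) =
        ⟪y, X (g k.1)⟫_ℂ * ⟪g k.1, x⟫_ℂ
      rw [inner_smul_right]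
      field_simp
    rw [heq]
    exact h3
  · intro k
    have hne : ((‖X (g k.1)‖ : ℝ) : ℂ) ≠ 0 := by exact_mod_cast (hpos k).ne'
    show ⟪((‖X (g k.1)‖ : ℝ) : ℂ)⁻¹ • X (g k.1), X (g k.1)⟫_ℂ = ((‖X (g k.1)‖ : ℝ) : ℂ)
    rw [inner_smul_left, inner_self_eq_norm_sq_to_K, map_inv₀, Complex.conj_ofReal]
    field_simp
    rfl
  · intro p hp
    rw [trAbsPow_eq b g hg hp]
    have hsupp : Function.support (fun k => ENNReal.ofReal (lam k ^ (p / 2))) ⊆ {k | lam k ≠ 0} := by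
      intro k hk hk0
      apply hk
      have hk0' : lam k = 0 := hk0
      show ENNReal.ofReal (lam k ^ (p / 2)) = 0
      rw [hk0', Real.zero_rpow (by positivity), ENNReal.ofReal_zero]
    rw [← tsum_subtype_eq_of_support_subset hsupp]
    refine tsum_congr (fun k => ?_)
    show ENNReal.ofReal (lam k.1 ^ (p / 2)) = _
    rw [hlam, rpow_two_mul_half (norm_nonneg _)]

end svd

/-! Limits of finite sums over all finite subsets. -/

lemma bound_of_hasSum {J : Type u1} [Fintype J] {L : J → Type u2} (g : ∀ j, L j → ℂ) (c : J → ℂ)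
    (h : ∀ j, HasSum (g j) (c j)) {M : ℝ} (hM : ∀ R : ∀ j, Finset (L j), ‖∑ j, ∑ l ∈ R j, g j l‖ ≤ M) :
    ‖∑ j, c j‖ ≤ M := by
  have h1 : ∀ j, Tendsto (fun R : ∀ j, Finset (L j) => ∑ l ∈ R j, g j l) (Filter.pi fun _ => atTop)
      (𝓝 (c j)) := fun j => (show Tendsto (fun s : Finset (L j) => ∑ l ∈ s, g j l) atTop (𝓝 (c j)) from h j).comp
        (Filter.tendsto_eval_pi _ j)
  have h2 : Tendsto (fun R : ∀ j, Finset (L j) => ‖∑ j, ∑ l ∈ R j, g j l‖) (Filter.pi fun _ => atTop)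
      (𝓝 ‖∑ j, c j‖) := (tendsto_finset_sum _ (fun j _ => h1 j)).norm
  exact le_of_tendsto' h2 hM

lemma rpow_bound_of_hasSum {J : Type u1} [Fintype J] {L : J → Type u2} (g : ∀ j, L j → ℝ) (c : J → ℝ)
    (h : ∀ j, HasSum (g j) (c j)) {r : ℝ} (hr : 0 < r) {M : ℝ}
    (hM : ∀ R : ∀ j, Finset (L j), ∑ j, (∑ l ∈ R j, g j l) ^ r ≤ M) : ∑ j, c j ^ r ≤ M := by
  have h1 : ∀ j, Tendsto (fun R : ∀ j, Finset (L j) => ∑ l ∈ R j, g j l) (Filter.pi fun _ => atTop)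
      (𝓝 (c j)) := fun j => (show Tendsto (fun s : Finset (L j) => ∑ l ∈ s, g j l) atTop (𝓝 (c j)) from h j).comp
        (Filter.tendsto_eval_pi _ j)
  have h2 : Tendsto (fun R : ∀ j, Finset (L j) => ∑ j, (∑ l ∈ R j, g j l) ^ r) (Filter.pi fun _ => atTop)
      (𝓝 (∑ j, c j ^ r)) := tendsto_finset_sum _ (fun j _ => (h1 j).rpow_const (Or.inr hr.le))
  exact le_of_tendsto' h2 hM

/-! The matrix -/

section matrix

variable {H : Type u} [NormedAddCommGroup H] [InnerProductSpace ℂ H]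
variable {I : Type u1} {J : Type u2} [Fintype I] [Fintype J] [DecidableEq J]

lemma matrix_sq {T : I → J → ℂ} {N : ℝ} (hTT : ∀ j j', ∑ i, conj (T i j) * T i j' = if j = j' then (N : ℂ) else 0)
    (x : J → H) : ∑ i, ‖∑ j, T i j • x j‖ ^ 2 = N * ∑ j, ‖x j‖ ^ 2 := by
  have h1 : ((∑ i, ‖∑ j, T i j • x j‖ ^ 2 : ℝ) : ℂ) = ((N * ∑ j, ‖x j‖ ^ 2 : ℝ) : ℂ) := by
    have h2 : ∀ z : H, ((‖z‖ ^ 2 : ℝ) : ℂ) = ⟪z, z⟫_ℂ := by
      intro z
      rw [inner_self_eq_norm_sq_to_K]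
      push_cast
      rfl
    rw [Complex.ofReal_sum, Complex.ofReal_mul, Complex.ofReal_sum]
    simp_rw [h2]
    calc ∑ i, ⟪∑ j, T i j • x j, ∑ j, T i j • x j⟫_ℂ
        = ∑ i, ∑ j, ∑ j', (conj (T i j) * T i j') * ⟪x j, x j'⟫_ℂ := by
          refine sum_congr rfl (fun i _ => ?_)
          rw [sum_inner]
          refine sum_congr rfl (fun j _ => ?_)
          rw [inner_smul_left, inner_sum, mul_sum]
          refine sum_congr rfl (fun j' _ => ?_)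
          rw [inner_smul_right]
          ring
      _ = ∑ j, ∑ j', (∑ i, conj (T i j) * T i j') * ⟪x j, x j'⟫_ℂ := by
          rw [sum_comm]
          refine sum_congr rfl (fun j _ => ?_)
          rw [sum_comm]
          refine sum_congr rfl (fun j' _ => ?_)
          rw [sum_mul]
      _ = ∑ j, (N : ℂ) * ⟪x j, x j⟫_ℂ := by
          refine sum_congr rfl (fun j _ => ?_)
          simp_rw [hTT]
          simp
      _ = _ := by rw [mul_sum]
  exact_mod_cast h1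

end matrix

end Pool.Agent.U506.CK
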