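import Pool.Agent.U506.CK.C

set_option autoImplicit false
set_option linter.unusedSectionVars false

/-! Clarkson inequalities for the rows of a matrix `T` with `|T_ij| ≤ 1` and `T* T = N` (helper506). -/

namespace Pool.Agent.U506.CK

open Finset Filter Topology Pool.Agent.Helper526.Sch
open scoped InnerProductSpace ComplexConjugate ENNReal

universe u v u1 u2

/-! Algebra of exponents -/

lemma alg_upper {x N α p q : ℝ} (hx : 0 ≤ x) (hN : 0 ≤ N) (hα : 0 ≤ α) (hp : 0 < p) (hq : 0 < q)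
    (hpq : 1 / p + 1 / q = 1) (h : x ≤ N ^ (1 / q) * (x ^ (1 / p) * α ^ (1 / p))) : x ≤ N * α ^ (q / p) := by
  rcases hx.eq_or_lt with h0 | h0
  · rw [← h0]
    exact mul_nonneg hN (Real.rpow_nonneg hα _)
  have h1 : x ^ (1 / q) ≤ N ^ (1 / q) * α ^ (1 / p) := by
    have h2 : x = x ^ (1 / p) * x ^ (1 / q) := by
      rw [← Real.rpow_add h0, hpq, Real.rpow_one]
    have h3 : 0 < x ^ (1 / p) := Real.rpow_pos_of_pos h0 _
    refine le_of_mul_le_mul_left ?_ h3
    calc x ^ (1 / p) * x ^ (1 / q) = x := h2.symm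
      _ ≤ N ^ (1 / q) * (x ^ (1 / p) * α ^ (1 / p)) := h
      _ = x ^ (1 / p) * (N ^ (1 / q) * α ^ (1 / p)) := by ring
  have h4 := Real.rpow_le_rpow (Real.rpow_nonneg hx _) h1 hq.le
  rw [← Real.rpow_mul hx, one_div_mul_cancel hq.ne', Real.rpow_one,
    Real.mul_rpow (Real.rpow_nonneg hN _) (Real.rpow_nonneg hα _), ← Real.rpow_mul hN,
    one_div_mul_cancel hq.ne', Real.rpow_one, ← Real.rpow_mul hα] at h4
  refine h4.trans (le_of_eq ?_)
  congr 2
  ring

lemma alg_lower {α R N p q : ℝ} (hα : 0 ≤ α) (hR : 0 ≤ R) (hN : 0 < N) (hp : 0 < p) (hq : 0 < q)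
    (hpq : 1 / p + 1 / q = 1) (h : N * α ≤ N ^ (1 / p) * (R ^ (1 / q) * α ^ (1 / q))) : N * α ^ (q / p) ≤ R := by
  rcases hα.eq_or_lt with h0 | h0
  · rw [← h0, Real.zero_rpow (by positivity), mul_zero]
    exact hR
  have h1 : N ^ (1 / q) * α ^ (1 / p) ≤ R ^ (1 / q) := by
    have h2 : α = α ^ (1 / p) * α ^ (1 / q) := by
      rw [← Real.rpow_add h0, hpq, Real.rpow_one]
    have h2' : N = N ^ (1 / p) * N ^ (1 / q) := by
      rw [← Real.rpow_add hN, hpq, Real.rpow_one]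
    have h3 : 0 < N ^ (1 / p) * α ^ (1 / q) := mul_pos (Real.rpow_pos_of_pos hN _) (Real.rpow_pos_of_pos h0 _)
    refine le_of_mul_le_mul_left ?_ h3
    calc N ^ (1 / p) * α ^ (1 / q) * (N ^ (1 / q) * α ^ (1 / p))
        = (N ^ (1 / p) * N ^ (1 / q)) * (α ^ (1 / p) * α ^ (1 / q)) := by ring
      _ = N * α := by rw [← h2, ← h2']
      _ ≤ N ^ (1 / p) * (R ^ (1 / q) * α ^ (1 / q)) := h
      _ = N ^ (1 / p) * α ^ (1 / q) * R ^ (1 / q) := by ring
  have h4 := Real.rpow_le_rpow (mul_nonneg (Real.rpow_nonneg hN.le _) (Real.rpow_nonneg hα _)) h1 hq.le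
  rw [← Real.rpow_mul hR, one_div_mul_cancel hq.ne', Real.rpow_one,
    Real.mul_rpow (Real.rpow_nonneg hN.le _) (Real.rpow_nonneg hα _), ← Real.rpow_mul hN.le,
    one_div_mul_cancel hq.ne', Real.rpow_one, ← Real.rpow_mul hα] at h4
  refine le_trans (le_of_eq ?_) h4
  congr 2
  ring

variable {ι : Type v} {H : Type u} [NormedAddCommGroup H] [InnerProductSpace ℂ H] [CompleteSpace H]
variable {I : Type u1} {J : Type u2} [Fintype I] [Fintype J] [DecidableEq J]

lemma norm_rpow (b : HilbertBasis ι ℂ H) {p : ℝ} (hp : 0 < p) (X : H →L[ℂ] H) (r : ℝ) :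
    schattenNorm b p X ^ r = (trAbsPow b p X).toReal ^ (r / p) := by
  unfold schattenNorm
  rw [← Real.rpow_mul ENNReal.toReal_nonneg]
  congr 1
  ring

lemma hasSum_svd {κ : Type u} {s : κ → ℝ} (hs : ∀ k, 0 < s k) {p : ℝ} {t : ℝ≥0∞}
    (h : t = ∑' k, ENNReal.ofReal (s k ^ p)) (ht : t < ∞) : HasSum (fun k => s k ^ p) t.toReal := by
  have h1 : ∑' k, ENNReal.ofReal (s k ^ p) ≠ ∞ := by rw [← h]; exact ht.ne
  have h2 := ENNReal.hasSum_toReal h1
  have h3 : (fun k => (ENNReal.ofReal (s k ^ p)).toReal) = fun k => s k ^ p := by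
    funext k
    exact ENNReal.toReal_ofReal (Real.rpow_nonneg (hs k).le _)
  rw [h3] at h2
  have h4 : t.toReal = ∑' k, s k ^ p := by
    rw [h, ENNReal.tsum_toReal_eq (fun k => ENNReal.ofReal_ne_top), h3]
  rw [h4]
  exact h2

lemma row_mem (b : HilbertBasis ι ℂ H) {p : ℝ} (hp : 0 < p) (T : I → J → ℂ) (A : J → H →L[ℂ] H)
    (hA : ∀ j, IsSchatten b p (A j)) (i : I) : IsSchatten b p (∑ j, T i j • A j) :=
  (schattenSubmodule b p hp).sum_mem (fun j _ => (schattenSubmodule b p hp).smul_mem _ (hA j))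

/-- **`1 < p ≤ 2`.** -/
theorem upper (b : HilbertBasis ι ℂ H) {T : I → J → ℂ} (hT1 : ∀ i j, ‖T i j‖ ≤ 1) {N : ℝ} (hN : 0 < N)
    (hTT : ∀ j j', ∑ i, conj (T i j) * T i j' = if j = j' then (N : ℂ) else 0) {p q : ℝ} (hp : 1 < p)
    (hp2 : p ≤ 2) (hpq : 1 / p + 1 / q = 1) (A : J → H →L[ℂ] H) (hA : ∀ j, IsSchatten b p (A j)) :
    ∑ i, schattenNorm b p (∑ j, T i j • A j) ^ q ≤ N * (∑ j, schattenNorm b p (A j) ^ p) ^ (q / p) := by
  have hp0 : 0 < p := by linarith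
  have hq' : 1 / q = 1 - 1 / p := by linarith
  have h1p : 1 / p < 1 := by rw [div_lt_one hp0]; exact hp
  have hq0 : 0 < q := by
    have : 0 < 1 / q := by rw [hq']; linarith
    exact one_div_pos.1 this
  have hqp : q / p = q - 1 := by
    have h : q * (1 / p + 1 / q) = q := by rw [hpq, mul_one]
    rw [mul_add, mul_one_div_cancel hq0.ne'] at h
    have : q / p = q * (1 / p) := by ring
    linarith
  have hpq' : p / q = p - 1 := by
    have h : p * (1 / p + 1 / q) = p := by rw [hpq, mul_one]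
    rw [mul_add, mul_one_div_cancel hp0.ne'] at h
    have : p / q = p * (1 / q) := by ring
    linarith
  have hB := row_mem b hp0 T A hA
  choose κA wA vA sA hwA hvA hsA hSA _ htA using fun j => exists_svd b (hA j).1
  choose κB wB vB sB hwB hvB hsB _ hvalB htB using fun i => exists_svd b (hB i).1
  have hSumA : ∀ j, HasSum (fun l => sA j l ^ p) (trAbsPow b p (A j)).toReal := fun j =>
    hasSum_svd (hsA j) (htA j p hp0) (hA j).2
  have hSumB : ∀ i, HasSum (fun k => sB i k ^ p) (trAbsPow b p (∑ j, T i j • A j)).toReal := fun i =>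
    hasSum_svd (hsB i) (htB i p hp0) (hB i).2
  simp_rw [norm_rpow b hp0]
  rw [div_self hp0.ne']
  simp_rw [Real.rpow_one]
  refine rpow_bound_of_hasSum _ _ hSumB (by positivity) (fun S => ?_)
  -- the finite inequality
  set σ : I → ℝ := fun i => ∑ k ∈ S i, sB i k ^ p with hσ
  set α : ℝ := ∑ j, (trAbsPow b p (A j)).toReal with hα
  have hσ0 : ∀ i, 0 ≤ σ i := fun i => sum_nonneg (fun k _ => Real.rpow_nonneg (hsB i k).le _)
  have hσpos : ∀ i, ∀ k ∈ S i, 0 < σ i := fun i k hk =>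
    lt_of_lt_of_le (Real.rpow_pos_of_pos (hsB i k) p)
      (single_le_sum (f := fun k => sB i k ^ p) (fun k _ => Real.rpow_nonneg (hsB i k).le _) hk)
  have hα0 : 0 ≤ α := sum_nonneg (fun j _ => ENNReal.toReal_nonneg)
  set y : ∀ i, κB i → ℝ := fun i k => σ i ^ (q / p - 1) * sB i k ^ (p - 1) with hy
  have hypos : ∀ i, ∀ k ∈ S i, 0 < y i k := fun i k hk =>
    mul_pos (Real.rpow_pos_of_pos (hσpos i k hk) _) (Real.rpow_pos_of_pos (hsB i k) _)
  have hyq : ∀ i, (∑ k ∈ S i, y i k ^ q) ^ (p / q) = σ i ^ (q / p) := by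
    intro i
    by_cases hS : S i = ∅
    · simp only [hσ, hS, sum_empty]
      rw [Real.zero_rpow (by positivity), Real.zero_rpow (by positivity)]
    · obtain ⟨k0, hk0⟩ := nonempty_iff_ne_empty.2 hS
      have hpos := hσpos i k0 hk0
      have h1 : ∀ k ∈ S i, y i k ^ q = σ i ^ ((q / p - 1) * q) * sB i k ^ p := by
        intro k _
        simp only [hy]
        rw [Real.mul_rpow (Real.rpow_nonneg (hσ0 i) _) (Real.rpow_nonneg (hsB i k).le _),
          ← Real.rpow_mul (hσ0 i), ← Real.rpow_mul (hsB i k).le]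
        congr 2
        rw [← hpq', div_mul_cancel₀ _ hq0.ne']
      rw [sum_congr rfl h1, ← mul_sum]
      have h2 : σ i ^ ((q / p - 1) * q) * ∑ k ∈ S i, sB i k ^ p = σ i ^ ((q / p - 1) * q + 1) := by
        rw [Real.rpow_add hpos, Real.rpow_one]
      rw [h2, ← Real.rpow_mul (hσ0 i)]
      congr 1
      have h3 : ((q / p - 1) * q + 1) * (p / q) = (q / p - 1) * p + p / q := by field_simp
      rw [h3, sub_mul, div_mul_cancel₀ _ hp0.ne', one_mul, hpq', hqp]
      ring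
  set X : ℝ := ∑ i, σ i ^ (q / p) with hX
  have hX0 : 0 ≤ X := sum_nonneg (fun i _ => Real.rpow_nonneg (hσ0 i) _)
  have hT2 : ∀ x : J → H, ∑ i, ‖∑ j, T i j • x j‖ ^ 2 ≤ N * ∑ j, ‖x j‖ ^ 2 := fun x => (matrix_sq hTT x).le
  have hlim : ‖∑ j, ∑ i, ∑ k ∈ S i, (y i k : ℂ) * T i j * ⟪wB i k, A j (vB i k)⟫_ℂ‖ ≤
      N ^ (1 / q) * (X ^ (1 / p) * α ^ (1 / p)) := by
    refine bound_of_hasSum (fun j l => ∑ i, ∑ k ∈ S i, (y i k : ℂ) * T i j *
      ((sA j l : ℂ) * (⟪wB i k, wA j l⟫_ℂ * ⟪vA j l, vB i k⟫_ℂ))) _ (fun j => hasSum_sum (fun i _ =>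
        hasSum_sum (fun k _ => (hSA j (vB i k) (wB i k)).mul_left _))) (fun R => ?_)
    have hPhi : ∑ j, ∑ l ∈ R j, ∑ i, ∑ k ∈ S i, (y i k : ℂ) * T i j *
        ((sA j l : ℂ) * (⟪wB i k, wA j l⟫_ℂ * ⟪vA j l, vB i k⟫_ℂ)) =
        Phi T vB wB wA vA S R (fun i k => (y i k : ℂ)) (fun j l => (sA j l : ℂ)) := by
      unfold Phi
      calc ∑ j, ∑ l ∈ R j, ∑ i, ∑ k ∈ S i, (y i k : ℂ) * T i j *
            ((sA j l : ℂ) * (⟪wB i k, wA j l⟫_ℂ * ⟪vA j l, vB i k⟫_ℂ))
          = ∑ j, ∑ i, ∑ k ∈ S i, ∑ l ∈ R j, (y i k : ℂ) * T i j *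
            ((sA j l : ℂ) * (⟪wB i k, wA j l⟫_ℂ * ⟪vA j l, vB i k⟫_ℂ)) := by
            refine sum_congr rfl (fun j _ => ?_)
            rw [sum_comm]
            refine sum_congr rfl (fun i _ => ?_)
            rw [sum_comm]
        _ = ∑ i, ∑ k ∈ S i, ∑ j, ∑ l ∈ R j, (y i k : ℂ) * T i j *
            ((sA j l : ℂ) * (⟪wB i k, wA j l⟫_ℂ * ⟪vA j l, vB i k⟫_ℂ)) := by
            rw [sum_comm]
            refine sum_congr rfl (fun i _ => ?_)
            rw [sum_comm]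
        _ = _ := by
            refine sum_congr rfl (fun i _ => sum_congr rfl (fun k _ => sum_congr rfl (fun j _ => sum_congr rfl
              (fun l _ => ?_))))
            ring
    rw [hPhi]
    have h1 := interp hT1 hN.le hT2 hvB hwB hwA hvA S R hp hp2 hpq y sA hypos (fun j l _ => hsA j l)
    refine h1.trans ?_
    simp_rw [hyq]
    have h2 : ∑ j, ∑ l ∈ R j, sA j l ^ p ≤ α :=
      sum_le_sum (fun j _ => sum_le_hasSum (R j) (fun l _ => Real.rpow_nonneg (hsA j l).le _) (hSumA j))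
    have h3 : 0 ≤ ∑ j, ∑ l ∈ R j, sA j l ^ p :=
      sum_nonneg (fun j _ => sum_nonneg (fun l _ => Real.rpow_nonneg (hsA j l).le _))
    have h4 : 0 ≤ X ^ (1 / p) := Real.rpow_nonneg hX0 _
    have h5 : 0 ≤ N ^ (1 / q) := Real.rpow_nonneg hN.le _
    gcongr
  have hval : ∑ j, ∑ i, ∑ k ∈ S i, (y i k : ℂ) * T i j * ⟪wB i k, A j (vB i k)⟫_ℂ = (X : ℂ) := by
    rw [sum_comm]
    have h1 : ∀ i, ∑ j, ∑ k ∈ S i, (y i k : ℂ) * T i j * ⟪wB i k, A j (vB i k)⟫_ℂ =
        ((σ i ^ (q / p) : ℝ) : ℂ) := by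
      intro i
      rw [sum_comm]
      have h2 : ∀ k ∈ S i, ∑ j, (y i k : ℂ) * T i j * ⟪wB i k, A j (vB i k)⟫_ℂ =
          ((σ i ^ (q / p - 1) * sB i k ^ p : ℝ) : ℂ) := by
        intro k _
        have h3 : ∑ j, (y i k : ℂ) * T i j * ⟪wB i k, A j (vB i k)⟫_ℂ =
            (y i k : ℂ) * ⟪wB i k, (∑ j, T i j • A j) (vB i k)⟫_ℂ := by
          rw [ContinuousLinearMap.sum_apply, inner_sum, mul_sum]
          refine sum_congr rfl (fun j _ => ?_)
          rw [ContinuousLinearMap.smul_apply, inner_smul_right]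
          ring
        rw [h3, hvalB i k]
        have h4 : y i k * sB i k = σ i ^ (q / p - 1) * sB i k ^ p := by
          simp only [hy]
          rw [mul_assoc]
          congr 1
          have h5 : sB i k ^ (p - 1) * sB i k = sB i k ^ (p - 1) * sB i k ^ (1 : ℝ) := by rw [Real.rpow_one]
          rw [h5, ← Real.rpow_add (hsB i k)]
          congr 1
          ring
        rw [← h4]
        push_cast
        rfl
      rw [sum_congr rfl h2, ← Complex.ofReal_sum, ← mul_sum]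
      by_cases hS : S i = ∅
      · simp only [hσ, hS, sum_empty, mul_zero]
        rw [Real.zero_rpow (by positivity)]
      · obtain ⟨k0, hk0⟩ := nonempty_iff_ne_empty.2 hS
        have hpos := hσpos i k0 hk0
        congr 1
        have h5 : σ i ^ (q / p - 1) * ∑ k ∈ S i, sB i k ^ p = σ i ^ (q / p - 1) * σ i ^ (1 : ℝ) := by
          rw [Real.rpow_one]
        rw [h5, ← Real.rpow_add hpos]
        congr 1
        ring
    simp_rw [h1]
    rw [← Complex.ofReal_sum]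
  rw [hval, Complex.norm_real, Real.norm_of_nonneg hX0] at hlim
  exact alg_upper hX0 hN.le hα0 hp0 hq0 hpq hlim

end Pool.Agent.U506.CK
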