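import Pool.Agent.U506.CK.D

set_option autoImplicit false
set_option linter.unusedSectionVars false

/-! The case `p ≥ 2`, by duality (helper506). -/

namespace Pool.Agent.U506.CK

open Finset Filter Topology Pool.Agent.Helper526.Sch
open scoped InnerProductSpace ComplexConjugate ENNReal

universe u v u1 u2

variable {ι : Type v} {H : Type u} [NormedAddCommGroup H] [InnerProductSpace ℂ H] [CompleteSpace H]
variable {I : Type u1} {J : Type u2} [Fintype I] [Fintype J] [DecidableEq J]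

/-- **`p ≥ 2`.** -/
theorem lower (b : HilbertBasis ι ℂ H) {T : I → J → ℂ} (hT1 : ∀ i j, ‖T i j‖ ≤ 1) {N : ℝ} (hN : 0 < N)
    (hTT : ∀ j j', ∑ i, conj (T i j) * T i j' = if j = j' then (N : ℂ) else 0) {p q : ℝ} (hp : 2 ≤ p)
    (hpq : 1 / p + 1 / q = 1) (A : J → H →L[ℂ] H) (hA : ∀ j, IsSchatten b p (A j)) :
    N * (∑ j, schattenNorm b p (A j) ^ p) ^ (q / p) ≤ ∑ i, schattenNorm b p (∑ j, T i j • A j) ^ q := by
  have hp0 : 0 < p := by linarith
  have hq' : 1 / q = 1 - 1 / p := by linarith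
  have h1p : 1 / p ≤ 1 / 2 := one_div_le_one_div_of_le (by norm_num) hp
  have h1p0 : 0 < 1 / p := by positivity
  have hq0 : 0 < q := by
    have : 0 < 1 / q := by rw [hq']; linarith
    exact one_div_pos.1 this
  have hq1 : 1 < q := by
    have : 1 / q < 1 := by rw [hq']; linarith
    rwa [div_lt_one hq0] at this
  have hq2 : q ≤ 2 := by
    have : 1 / 2 ≤ 1 / q := by rw [hq']; linarith
    rwa [one_div_le_one_div (by norm_num) hq0] at this
  have hqp : q / p = q - 1 := by
    have h : q * (1 / p + 1 / q) = q := by rw [hpq, mul_one]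
    rw [mul_add, mul_one_div_cancel hq0.ne'] at h
    have : q / p = q * (1 / p) := by ring
    linarith
  have hpq' : p / q = p - 1 := by
    have h : p * (1 / p + 1 / q) = p := by rw [hpq, mul_one]
    rw [mul_add, mul_one_div_cancel hp0.ne'] at h
    have : p / q = p * (1 / q) := by ring
    linarith
  have hB := row_mem b hp0 T A hA
  choose κA wA vA sA hwA hvA hsA hSA hvalA htA using fun j => exists_svd b (hA j).1
  choose κB wB vB sB hwB hvB hsB hSB _ htB using fun i => exists_svd b (hB i).1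
  have hSumA : ∀ j, HasSum (fun l => sA j l ^ p) (trAbsPow b p (A j)).toReal := fun j =>
    hasSum_svd (hsA j) (htA j p hp0) (hA j).2
  have hSumB : ∀ i, HasSum (fun k => sB i k ^ p) (trAbsPow b p (∑ j, T i j • A j)).toReal := fun i =>
    hasSum_svd (hsB i) (htB i p hp0) (hB i).2
  simp_rw [norm_rpow b hp0]
  rw [div_self hp0.ne']
  simp_rw [Real.rpow_one]
  set X : ℝ := ∑ i, (trAbsPow b p (∑ j, T i j • A j)).toReal ^ (q / p) with hX
  have hX0 : 0 ≤ X := sum_nonneg (fun i _ => Real.rpow_nonneg ENNReal.toReal_nonneg _)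
  have hT2 : ∀ x : J → H, ∑ i, ‖∑ j, T i j • x j‖ ^ 2 ≤ N * ∑ j, ‖x j‖ ^ 2 := fun x => (matrix_sq hTT x).le
  -- the finite inequality
  have key : ∀ R : ∀ j, Finset (κA j), N * (∑ j, ∑ l ∈ R j, sA j l ^ p) ^ (q / p) ≤ X := by
    intro R
    set α : ℝ := ∑ j, ∑ l ∈ R j, sA j l ^ p with hα
    have hα0 : 0 ≤ α := sum_nonneg (fun j _ => sum_nonneg (fun l _ => Real.rpow_nonneg (hsA j l).le _))
    set c : ∀ j, κA j → ℝ := fun j l => sA j l ^ (p - 1) with hc
    have hcpos : ∀ j, ∀ l ∈ R j, 0 < c j l := fun j l _ => Real.rpow_pos_of_pos (hsA j l) _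
    have hcq : ∑ j, ∑ l ∈ R j, c j l ^ q = α := by
      refine sum_congr rfl (fun j _ => sum_congr rfl (fun l _ => ?_))
      simp only [hc]
      rw [← Real.rpow_mul (hsA j l).le, ← hpq', div_mul_cancel₀ _ hq0.ne']
    have hlim : ‖∑ i, ∑ j, ∑ l ∈ R j, (c j l : ℂ) * T i j * ⟪(∑ j, T i j • A j) (vA j l), wA j l⟫_ℂ‖ ≤
        N ^ (1 / p) * (X ^ (1 / q) * α ^ (1 / q)) := by
      have hS : ∀ i x z, HasSum (fun k => (sB i k : ℂ) * (⟪wB i k, x⟫_ℂ * ⟪z, vB i k⟫_ℂ))
          ⟪(∑ j, T i j • A j) z, x⟫_ℂ := by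
        intro i x z
        have h1 := (hSB i z x).star
        have h2 : (star ⟪x, (∑ j, T i j • A j) z⟫_ℂ) = ⟪(∑ j, T i j • A j) z, x⟫_ℂ :=
          inner_conj_symm ((∑ j, T i j • A j) z) x
        rw [h2] at h1
        have h3 : (fun k => (sB i k : ℂ) * (⟪wB i k, x⟫_ℂ * ⟪z, vB i k⟫_ℂ)) =
            fun k => star ((sB i k : ℂ) * (⟪x, wB i k⟫_ℂ * ⟪vB i k, z⟫_ℂ)) := by
          funext k
          show _ = conj ((sB i k : ℂ) * (⟪x, wB i k⟫_ℂ * ⟪vB i k, z⟫_ℂ))
          rw [map_mul, map_mul, inner_conj_symm, inner_conj_symm, Complex.conj_ofReal]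
        rw [h3]
        exact h1
      refine bound_of_hasSum (fun i k => ∑ j, ∑ l ∈ R j, (c j l : ℂ) * T i j *
        ((sB i k : ℂ) * (⟪wB i k, wA j l⟫_ℂ * ⟪vA j l, vB i k⟫_ℂ))) _ (fun i => hasSum_sum (fun j _ =>
          hasSum_sum (fun l _ => (hS i (wA j l) (vA j l)).mul_left _))) (fun S => ?_)
      have hPhi : ∑ i, ∑ k ∈ S i, ∑ j, ∑ l ∈ R j, (c j l : ℂ) * T i j *
          ((sB i k : ℂ) * (⟪wB i k, wA j l⟫_ℂ * ⟪vA j l, vB i k⟫_ℂ)) =
          Phi T vB wB wA vA S R (fun i k => (sB i k : ℂ)) (fun j l => (c j l : ℂ)) := by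
        unfold Phi
        refine sum_congr rfl (fun i _ => sum_congr rfl (fun k _ => sum_congr rfl (fun j _ => sum_congr rfl
          (fun l _ => ?_))))
        ring
      rw [hPhi]
      have h1 := interp hT1 hN.le hT2 hvB hwB hwA hvA S R hq1 hq2 (by rw [add_comm]; exact hpq) sB c
        (fun i k _ => hsB i k) hcpos
      refine h1.trans ?_
      rw [hcq]
      have h2 : ∑ i, (∑ k ∈ S i, sB i k ^ p) ^ (q / p) ≤ X := by
        refine sum_le_sum (fun i _ => ?_)
        have h3 : 0 ≤ ∑ k ∈ S i, sB i k ^ p := sum_nonneg (fun k _ => Real.rpow_nonneg (hsB i k).le _)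
        exact Real.rpow_le_rpow h3
          (sum_le_hasSum (S i) (fun k _ => Real.rpow_nonneg (hsB i k).le _) (hSumB i)) (by positivity)
      have h3 : 0 ≤ ∑ i, (∑ k ∈ S i, sB i k ^ p) ^ (q / p) :=
        sum_nonneg (fun i _ => Real.rpow_nonneg (sum_nonneg (fun k _ => Real.rpow_nonneg (hsB i k).le _)) _)
      have h4 : 0 ≤ α ^ (1 / q) := Real.rpow_nonneg hα0 _
      have h5 : 0 ≤ N ^ (1 / p) := Real.rpow_nonneg hN.le _
      gcongr
    have hval : ∑ i, ∑ j, ∑ l ∈ R j, (c j l : ℂ) * T i j * ⟪(∑ j, T i j • A j) (vA j l), wA j l⟫_ℂ =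
        ((N * α : ℝ) : ℂ) := by
      rw [sum_comm]
      have h1 : ∀ j, ∑ i, ∑ l ∈ R j, (c j l : ℂ) * T i j * ⟪(∑ j, T i j • A j) (vA j l), wA j l⟫_ℂ =
          ((N * ∑ l ∈ R j, sA j l ^ p : ℝ) : ℂ) := by
        intro j
        rw [sum_comm]
        have h2 : ∀ l ∈ R j, ∑ i, (c j l : ℂ) * T i j * ⟪(∑ j, T i j • A j) (vA j l), wA j l⟫_ℂ =
            ((N * sA j l ^ p : ℝ) : ℂ) := by
          intro l _
          have h3 : ∑ i, (c j l : ℂ) * T i j * ⟪(∑ j, T i j • A j) (vA j l), wA j l⟫_ℂ =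
              (c j l : ℂ) * ⟪∑ i, conj (T i j) • (∑ j, T i j • A j) (vA j l), wA j l⟫_ℂ := by
            rw [sum_inner, mul_sum]
            refine sum_congr rfl (fun i _ => ?_)
            rw [inner_smul_left, Complex.conj_conj]
            ring
          have h4 : ∑ i, conj (T i j) • (∑ j, T i j • A j) (vA j l) = (N : ℂ) • A j (vA j l) := by
            have h5 : ∀ i, conj (T i j) • (∑ j, T i j • A j) (vA j l) =
                ∑ j', (conj (T i j) * T i j') • A j' (vA j l) := by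
              intro i
              rw [ContinuousLinearMap.sum_apply, smul_sum]
              refine sum_congr rfl (fun j' _ => ?_)
              rw [ContinuousLinearMap.smul_apply, smul_smul]
            simp_rw [h5]
            rw [sum_comm]
            simp_rw [← sum_smul, hTT]
            simp
          rw [h3, h4, inner_smul_left, Complex.conj_ofReal]
          have h6 : ⟪A j (vA j l), wA j l⟫_ℂ = (sA j l : ℂ) := by
            rw [← inner_conj_symm, hvalA j l, Complex.conj_ofReal]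
          rw [h6]
          have h7 : c j l * sA j l = sA j l ^ p := by
            simp only [hc]
            have h8 : sA j l ^ (p - 1) * sA j l = sA j l ^ (p - 1) * sA j l ^ (1 : ℝ) := by rw [Real.rpow_one]
            rw [h8, ← Real.rpow_add (hsA j l)]
            congr 1
            ring
          rw [← h7]
          push_cast
          ring
        rw [sum_congr rfl h2, ← Complex.ofReal_sum, ← mul_sum]
      simp_rw [h1]
      rw [← Complex.ofReal_sum, ← mul_sum]
    rw [hval, Complex.norm_real, Real.norm_of_nonneg (mul_nonneg hN.le hα0)] at hlim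
    exact alg_lower hα0 hX0 hN hp0 hq0 hpq hlim
  -- the limit
  have hNX : 0 ≤ X / N := div_nonneg hX0 hN.le
  have h1 : ∑ j, (trAbsPow b p (A j)).toReal ^ (1 : ℝ) ≤ (X / N) ^ (p / q) := by
    refine rpow_bound_of_hasSum _ _ hSumA one_pos (fun R => ?_)
    simp_rw [Real.rpow_one]
    have h2 := key R
    have h3 : 0 ≤ ∑ j, ∑ l ∈ R j, sA j l ^ p :=
      sum_nonneg (fun j _ => sum_nonneg (fun l _ => Real.rpow_nonneg (hsA j l).le _))
    have h4 : (∑ j, ∑ l ∈ R j, sA j l ^ p) ^ (q / p) ≤ X / N := by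
      rw [le_div_iff₀ hN, mul_comm]
      exact h2
    have h5 := Real.rpow_le_rpow (Real.rpow_nonneg h3 _) h4 (show 0 ≤ p / q by positivity)
    rw [← Real.rpow_mul h3, show q / p * (p / q) = 1 by field_simp, Real.rpow_one] at h5
    exact h5
  simp_rw [Real.rpow_one] at h1
  have h6 : 0 ≤ ∑ j, (trAbsPow b p (A j)).toReal := sum_nonneg (fun j _ => ENNReal.toReal_nonneg)
  have h7 := Real.rpow_le_rpow h6 h1 (show 0 ≤ q / p by positivity)
  rw [← Real.rpow_mul hNX, show p / q * (q / p) = 1 by field_simp, Real.rpow_one, le_div_iff₀ hN] at h7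
  rw [mul_comm]
  exact h7

end Pool.Agent.U506.CK
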